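import Mathlib
import Pool.Agent.V8H94.GC.Converse
import Pool.Agent.V8H94.GC.PrimeDegree
import Pool.Agent.V8H71.OD.Main
import Pool.Agent.Y1.TS.Split
import Pool.Agent.TH170.FT.Tate

/-!
# The Tate conjecture for abelian varieties with one Frobenius element with several eigenvalues in the
same generic CM field

Let `K i` (`i` in a finite set) be CM fields with the following two properties.

* They are pairwise independent: for `i ≠ i'` and all complex embeddings `φ` of `K i` and `ψ` of
  `K i'` some automorphism of `ℂ` is the identity on `φ (K i)` and the complex conjugation on
  `ψ (K i')` (no condition if there is only one field).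
* Each `K = K i` is *generic* (`IsGeneric`): for any two complex embeddings `φ`, `ψ` of `K` which are
  neither equal nor complex conjugate some automorphism of `ℂ` is the identity on `φ (K)` and the
  complex conjugation on `ψ (K)`. In other words, the functions on the set of the embeddings of `K`
  which change their sign under complex conjugation form an absolutely irreducible representation
  of the group of automorphisms of `ℂ`. This is so for instance if the Galois group is as large as
  possible (it contains all changes of signs). The theorem contains a proof that all CM fields of
  the following kinds (`IsExample`) are generic: imaginary quadratic fields, fields of degree four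
  which are not normal over `ℚ`, fields of degree `2 l`, `l` an odd prime number, which contain no
  quadratic field.

For each `i` let `π ⟨i, k⟩` (`k` in a finite set `J i`) be **any number of Weil numbers in the same
field** `K i` (`IsWeil`), for `q = p ^ a`. The slope vector (`slopeVec`) of `π` is the
function `τ ↦ 2 v (τ π) - a` on the set of the embeddings of `K i` into an algebraic closure of `ℚ_p`,
`v (p) = 1`. It takes the values `2 s a - a`, where `s` are the slopes; nothing
is assumed about them (the Newton polygons are arbitrary).

Let `A` be an abelian variety over a number field (or a finitely generated field), of any dimension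
and with arbitrary endomorphisms, which has good reduction at some place with a residue field of
`p ^ a` elements. Suppose that the characteristic polynomial of the Frobenius element at this place is
the product of the minimal polynomials of the numbers `π z`, `z = ⟨i, k⟩` (`HasFrobenius`), and that
for each `i` the slope vectors of the numbers `π ⟨i, k⟩`, `k` in `J i`, are linearly independent
over `ℚ`. (So the reduction of `A` is isogenous to a product of simple abelian varieties, several of
which may have multiplication by the same field.) Then

(1) for all primes `ℓ` and all `n` and `m` each Tate class in `H^{2 m} (A^n, ℚ_ℓ (m))` lies in the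
`ℚ_ℓ`-linear span of the classes of algebraic cycles: **the Tate conjecture holds for all powers of
`A`**, over all finite extensions. The classes of cycles of codimension `m` are given by a set
`C n m`; what is used is that the Tate classes of degree two are combinations of classes of divisors
(Faltings) and that intersections of divisors are algebraic cycles (`IsCycleClasses`). In the formal
statement `V` is the rational Tate module with the action `ρ` of the Galois group and the Weil
pairing `ω` of a polarization (`IsTateModule`; with the semisimplicity theorem of Faltings), `χ` is
the cyclotomic character. The cohomology of `A ^ n` consists of the alternating forms on `V ^ n`;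

(2) (`TateClassesSplit`) let `B` be another abelian variety, or any smooth variety, over the same
field and `M = H^b (B, ℚ_ℓ (i))` (or any other representation of the Galois group), and suppose
that the eigenvalues of the Frobenius element on `M` are roots of a rational polynomial all of whose
complex roots are unrelated to the fields `K i` (`UnrelatedTo`: a function `n` on the complex
embeddings of `K i` with `n (conj φ) = - n φ` which is invariant under all automorphisms of `ℂ` that
fix a power of the number is zero; for instance a power of it lies in a totally real field or in a
field linearly disjoint from the normal closures of the `K i`). Then the classes in `H^j (A ^ r) ⊗ M`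
which are fixed by an open subgroup are zero for odd `j`, and linear combinations of products of
`m` Tate classes of degree two on `A ^ r` and of Tate classes in `M (- m)` for `j = 2 m`. So **the
Tate conjecture for `A ^ r × B` is equivalent to the Tate conjecture for `B`**.

(3) The only multiplicative relations between `p ^ a` and the conjugates of the numbers `π z` are the
trivial ones (`MaximalAngleRank`) if and only if for each `i` the slope vectors are linearly
independent. (4) The fields in the examples are generic.

That the first property in (3) implies (1) and (2) was formalized in the starting files (helper137,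
helper1, helper170 and others). New are (3) and (4): all criteria of this kind in the starting files
(and in the literature) allow at most one simple factor of the reduction for each CM field, or impose
conditions on the slopes.

The proof. Let `L` be a Galois extension of `ℚ` which contains the conjugates of the fields `K i`,
`G` its group, `X i` the set of the embeddings of `K i`, `u ⟨i, k⟩` the slope vector of `π ⟨i, k⟩`. A
multiplicative relation between the conjugates of the numbers `π ⟨i, k⟩` and `q` gives odd
functions `z ⟨i, k⟩ : X i → ℤ` with `∑ z ⟨i, k⟩ (φ) u ⟨i, k⟩ (g φ) = 0` for all `g` in `G` (the sum over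
`i`, `k` and `φ`). Fix `i`, `φ₀` in `X i` and `g`, and sum over all `g h`, `h` in the stabilizer `H` of
`φ₀`. If `φ` in some `X i'` is not `φ₀` or its conjugate then an element of `H` maps `φ` to its
conjugate, so that the sum of the numbers `u (g h φ)` over `h` is zero. What remains is
`∑ k, z ⟨i, k⟩ (φ₀) u ⟨i, k⟩ (g φ₀) = 0`. As `g φ₀` is an arbitrary element of `X i`, the vector
`∑ k, z ⟨i, k⟩ (φ₀) u ⟨i, k⟩` is zero, so that `z ⟨i, k⟩ (φ₀) = 0` if the slope vectors are linearly
independent. Conversely, a linear relation with integral coefficients `m k` between the slope vectors
implies that all absolute values of `∏ (π ⟨i, k⟩ / conj π ⟨i, k⟩) ^ m k` are one, so that this is a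
root of unity (Kronecker). For fields of degree `2 l` without quadratic subfields: if two embeddings
cannot be separated as in the definition of generic fields, there is a nonzero integral matrix on
`X`, invariant under `G`, odd in both variables and zero on the diagonal; on the odd functions, the
group ring of a group of order `l`, a nonconstant eigenvector would give a relation between the
`l`-th roots of unity; hence the eigenspace of the constant vector is a line stable under `G`, and `G`
acts on it through a character which defines a quadratic subfield.
-/

set_option autoImplicit false

namespace Pool.Agent.Results.MP_90d181_ag.GenericFrobeniusFields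

open NumberField Pool.Agent.H977R3.CM Pool.Agent.Y137.MV Pool.Agent.Y1.TS
  Pool.Agent.H204R3.GP Pool.Agent.TH170.FT Pool.Agent.V8H94.GC

open Pool.Agent.V8H71.OD (gen_of_angle)

/-- The Tate conjecture for all powers of the abelian varieties with a Frobenius element whose
characteristic polynomial is the product of the minimal polynomials of the Weil numbers `π i` for
`p ^ a`, for the prime number `ℓ`. -/
def TatePowers (p a : ℕ) [Fact p.Prime] {I : Type} [Fintype I]
    (K : I → Type) [∀ i, Field (K i)] [∀ i, NumberField (K i)] [∀ i, IsCMField (K i)]
    (π : ∀ i, K i) (ℓ : ℕ) [Fact ℓ.Prime] : Prop :=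
  ∀ (V Γ : Type) [AddCommGroup V] [Module ℚ_[ℓ] V] [FiniteDimensional ℚ_[ℓ] V] [Group Γ]
    (ρ : Representation ℚ_[ℓ] Γ V) (χ : Γ →* ℚ_[ℓ]) (ω : V →ₗ[ℚ_[ℓ]] V →ₗ[ℚ_[ℓ]] ℚ_[ℓ])
    (D : ∀ n : ℕ, Set ((Fin n → V) [⋀^Fin 2]→ₗ[ℚ_[ℓ]] ℚ_[ℓ]))
    (C : ∀ n m : ℕ, Set ((Fin n → V) [⋀^Fin m × Fin 2]→ₗ[ℚ_[ℓ]] ℚ_[ℓ])),
    IsTateModule ρ χ ω → IsCycleClasses ρ χ D C → HasFrobenius ρ χ p a π →
      ∀ (n m : ℕ) (f : (Fin n → V) [⋀^Fin m × Fin 2]→ₗ[ℚ_[ℓ]] ℚ_[ℓ]),
        IsTateClass ρ χ m f → f ∈ Submodule.span ℚ_[ℓ] (C n m)

/-- **The Tate conjecture for all powers of `A`, and the reduction of the Tate conjecture for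
`A ^ r × B` to the one for `B`, for all abelian varieties `A` with one Frobenius element whose
eigenvalues lie in generic, pairwise independent or equal CM fields, with linearly independent slope
vectors for each field.** -/
theorem result (p : ℕ) [Fact p.Prime] (a : ℕ) (ha : 0 < a) (I : Type) [Fintype I]
    (K : I → Type) [∀ i, Field (K i)] [∀ i, NumberField (K i)] [∀ i, IsCMField (K i)]
    (hind : PairwiseIndep K) (hgen : ∀ i, IsGeneric (K i)) (J : I → Type) [∀ i, Fintype (J i)]
    (π : ∀ z : Σ i, J i, K z.1) (hπ : ∀ z, IsWeil p a (π z)) :
    ((∀ i, LinearIndependent ℚ
        fun k : J i => (slopeVec a (π ⟨i, k⟩) : (K i →+* PadicAlgCl p) → ℝ)) →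
      (∀ (ℓ : ℕ) [Fact ℓ.Prime], TatePowers p a (fun z : Σ i, J i => K z.1) π ℓ) ∧
        TateClassesSplit (p := p) a (fun z : Σ i, J i => K z.1) π) ∧
    (MaximalAngleRank (p ^ a) π ↔ ∀ i, LinearIndependent ℚ
      fun k : J i => (slopeVec a (π ⟨i, k⟩) : (K i →+* PadicAlgCl p) → ℝ)) ∧
    ∀ (E : Type) [Field E] [NumberField E] [IsCMField E], IsExample E → IsGeneric E := by
  refine ⟨fun hlin => ?_, ⟨fun h i => lin_of_angle (fun z => (hπ z).1)
    (fun z => (hπ z).2) h i, fun h => angle_of_lin hind hgen (fun z => (hπ z).2) h⟩,
    fun E _ _ _ h => isGeneric_of_example h⟩
  have hang := angle_of_lin hind hgen (fun z => (hπ z).2) hlin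
  have hπ0 : ∀ z, π z ≠ 0 := fun z => ne_zero_of_weil (hπ z).2
  have hgenf := fun z => gen_of_angle hang hπ0 z
  refine ⟨?_, split_of_angle hgenf (fun z => (hπ z).2) hang⟩
  intro ℓ _ V Γ _ _ _ _ ρ χ ω D C hR hC hF n m f hf
  obtain ⟨L, hL1, hL2, j, h⟩ :=
    Pool.Agent.H204R3.CM.exists_galois (fun z : Σ i, J i => K z.1)
  have h1 := generated ha hgenf (fun z => (hπ z).2) j h (neat_of_angle j hang) hR hF n m f hf
  refine Submodule.span_le.2 ?_ h1
  rintro g ⟨B, hB, hg⟩
  exact wedge_mem (fun B g => hC.intersection n m B g) (fun l => hC.faltings n (B l) (hB l)) hg

end Pool.Agent.Results.MP_90d181_ag.GenericFrobeniusFields
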