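import Mathlib
import Pool.Agent.H204R3.GP.MTDefs
import Pool.Agent.W516.MT.Defs
import Pool.Agent.V8H91.TC.Final

/-!
# The Tate conjecture for the powers of an abelian variety is the Hodge conjecture and one class

Let `A` be an abelian variety over a number field, of any dimension and with arbitrary
endomorphisms, `ℓ` a prime number and `H^1` the first `ℓ`-adic cohomology group. We consider the Tate
classes in `(H^1)^{⊗ 2m}(m)`, which is a direct summand of `H^{2m}(A^{2m})(m)`, cut out by algebraic
correspondences; conversely `H^{2m}(A^k)(m)` is a direct sum of direct summands of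
`(H^1)^{⊗ 2m}(m)`. Let *Tate in codimension `m`* be the statement that all Tate classes in
`(H^1)^{⊗ 2m}(m)` are `ℚ_ℓ`-linear combinations of classes of algebraic cycles, and *Hodge in
codimension `m`* the statement that all Hodge classes in `(H^1(A(ℂ), ℚ))^{⊗ 2m}(m)` are rational
linear combinations of classes of algebraic cycles; these statements are the Tate conjecture and the
Hodge conjecture for cycles of codimension `m` on all powers of `A`.

**Theorem.** There is one class `Θ` in `Sym² (Sym² H^1(A)) (2)`, a direct summand of `H^4(A^4)(2)`,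
fixed by the whole Galois group, such that

* for every single `m ≥ 2`: Tate in codimension `m` is true if and only if Hodge in codimension `m`
  is true and `Θ` is a `ℚ_ℓ`-linear combination of Hodge classes;
* if `Θ` is a combination of algebraic classes, then for every `m`: Tate in codimension `m` is
  equivalent to Hodge in codimension `m`;
* the Tate conjecture for all powers of `A` is equivalent to the Hodge conjecture for all powers of
  `A` and the algebraicity of `Θ`.

In particular, if the Tate conjecture is true for the cycles of one codimension `m ≥ 2` on the powers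
of `A`, then for every `m'` the Tate conjecture for cycles of codimension `m'` on the powers
of `A` follows from the Hodge conjecture for them. If the Hodge conjecture is known for all powers of
`A`, the Tate conjecture for all powers of `A` is equivalent to the algebraicity of the one class
`Θ`, and to the Tate conjecture for one codimension `m ≥ 2`.

`Θ` is the Casimir tensor (for the trace form) of the Lie algebra of all endomorphisms of `H_1` that
annihilate all Tate classes. That the Mumford-Tate conjecture for all powers is equivalent to the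
statement that `Θ` is a combination of Hodge classes is MP_6c781a_ag QuarticTateClass. The new
argument here: a rational endomorphism that annihilates all Hodge classes annihilates the class of
the polarization, and so if it annihilates the product of `Θ` and of `m - 2` copies of the
polarization then it annihilates `Θ`; and a Hodge class that is a `ℚ_ℓ`-linear combination of
algebraic classes is a rational linear combination of algebraic classes.

In the formal statement `W` is `H_1(A, ℚ)`, `T` the tangent space at the origin and `per : W → T`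
the inclusion, `ω₀` is a Riemann form; `ℚ_ℓ ⊗ W` is the rational Tate module with the continuous
action `ρ` of the compact group `Γ` (the Galois group) and the Weil pairing `ω`; `χ` is the
cyclotomic character. `C m` is the space of the rational linear combinations of the classes of
algebraic cycles (defined over the algebraic closure); the only property that is used is that they
are Hodge classes. The hypotheses `hss`, `hF` are the theorems of Faltings, `hD` is the theorem
of Deligne and `hC` the theorem on centres (the Mumford-Tate conjecture is true for the centres;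
Vasiu, Ullmo-Yafaev).
-/

set_option autoImplicit false

namespace Pool.Agent.Results.MP_90d181_ag.OneClassBeyondHodge

open TensorProduct Pool.Agent.H204R3.GP Pool.Agent.W516.MTD

/-- The four variables of a quartic form. -/
def quad {V : Type*} (u v w x : V) : Fin 2 × Fin 2 → V :=
  fun l => if l.1 = 0 then (if l.2 = 0 then u else v) else (if l.2 = 0 then w else x)

/-- All matrix coefficients of the representation are continuous. -/
def ContinuousRep {k V Γ : Type*} [Field k] [TopologicalSpace k] [AddCommGroup V] [Module k V]
    [Group Γ] [TopologicalSpace Γ] (ρ : Representation k Γ V) : Prop :=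
  ∀ (v : V) (f : Module.Dual k V), Continuous fun s => f (ρ s v)

section

variable {k : Type} [Field k] [CharZero k] {W T : Type} [AddCommGroup W] [Module ℚ W]
  [AddCommGroup T] [Module ℂ T]

/-- The form `φ` on `V = k ⊗ W` is a linear combination, with coefficients in `k`, of elements of the
space `C` of rational forms. -/
def IsCombination {κ : Type} (C : Submodule ℚ (MultilinearMap ℚ (fun _ : κ => W) ℚ))
    (φ : MultilinearMap k (fun _ : κ => k ⊗[ℚ] W) k) : Prop :=
  φ ∈ Submodule.span k {φ' : MultilinearMap k (fun _ : κ => k ⊗[ℚ] W) k |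
    ∃ ψ : MultilinearMap ℚ (fun _ : κ => W) ℚ, ψ ∈ C ∧
      ∀ v : κ → W, φ' (fun l => (1 : k) ⊗ₜ[ℚ] v l) = ((ψ v : ℚ) : k)}

/-- The Hodge conjecture in codimension `m`: all Hodge classes in `(H^1)^{⊗ 2m}(m)` are in the space
`C m` of the combinations of classes of algebraic cycles. -/
def HodgeIn (per : W →+ T) (C : ∀ m : ℕ, Submodule ℚ (MultilinearMap ℚ (fun _ : Fin m × Fin 2 => W) ℚ))
    (m : ℕ) : Prop := ∀ ψ, IsHodgeTensor per ψ → ψ ∈ C m

/-- The Tate conjecture in codimension `m`: all Tate classes in `(H^1)^{⊗ 2m}(m)` are combinations of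
classes of algebraic cycles. -/
def TateIn {Γ : Type} [Group Γ] (ρ : Representation k Γ (k ⊗[ℚ] W)) (χ : Γ →* k)
    (C : ∀ m : ℕ, Submodule ℚ (MultilinearMap ℚ (fun _ : Fin m × Fin 2 => W) ℚ)) (m : ℕ) : Prop :=
  ∀ φ, IsTateTensor ρ χ m φ → IsCombination (C m) φ

end

/-- **The Tate conjecture for the powers of an abelian variety `A` over a number field is the Hodge
conjecture for them and the algebraicity of one class.** There is a class `Θ` in `Sym² (Sym² H^1)(2)`,
fixed by the whole Galois group, such that: for every `m ≥ 2` the Tate conjecture in codimension `m`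
is equivalent to the Hodge conjecture in codimension `m` and the statement that `Θ` is a combination
of Hodge classes; if `Θ` is a combination of algebraic classes then the two conjectures are equivalent
in every codimension; and the Tate conjecture in all codimensions is equivalent to the Hodge
conjecture in all codimensions and the algebraicity of `Θ`. -/
theorem result (ℓ : ℕ) [Fact ℓ.Prime]
    -- the complex torus `A(ℂ)` with a Riemann form
    {W T : Type} [AddCommGroup W] [Module ℚ W] [FiniteDimensional ℚ W] [AddCommGroup T]
    [Module ℂ T] (per : W →+ T) (hper : IsRationalStructure per)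
    (ω₀ : W →ₗ[ℚ] W →ₗ[ℚ] ℚ) (hR : IsRiemannForm per ω₀)
    -- the Galois group, its continuous action on the Tate module and the Weil pairing
    {Γ : Type} [Group Γ] [TopologicalSpace Γ] [IsTopologicalGroup Γ] [CompactSpace Γ]
    (ρ : Representation ℚ_[ℓ] Γ (ℚ_[ℓ] ⊗[ℚ] W)) (hρ : ContinuousRep ρ)
    (χ : Γ →* ℚ_[ℓ]) (hχ : Continuous χ)
    (ω : ℚ_[ℓ] ⊗[ℚ] W →ₗ[ℚ_[ℓ]] ℚ_[ℓ] ⊗[ℚ] W →ₗ[ℚ_[ℓ]] ℚ_[ℓ])
    (hωω : ∀ u v : W, ω ((1 : ℚ_[ℓ]) ⊗ₜ[ℚ] u) ((1 : ℚ_[ℓ]) ⊗ₜ[ℚ] v) = ((ω₀ u v : ℚ) : ℚ_[ℓ]))
    (hωρ : ∀ s u v, ω (ρ s u) (ρ s v) = χ s * ω u v)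
    -- the theorems of Faltings and Deligne and the theorem on centres
    (hss : Semisimple ρ) (hF : Faltings per ρ) (hD : Deligne per ρ χ) (hC : Centres per ρ χ)
    -- the classes of algebraic cycles, which are Hodge classes
    (C : ∀ m : ℕ, Submodule ℚ (MultilinearMap ℚ (fun _ : Fin m × Fin 2 => W) ℚ))
    (hCH : ∀ m, ∀ ψ ∈ C m, IsHodgeTensor per ψ) :
    ∃ Θ : MultilinearMap ℚ_[ℓ] (fun _ : Fin 2 × Fin 2 => ℚ_[ℓ] ⊗[ℚ] W) ℚ_[ℓ],
      -- it is a Tate class, fixed by the whole Galois group
      (∀ s v, Θ (fun l => ρ s (v l)) = χ s ^ 2 * Θ v) ∧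
      -- it is in `Sym² (Sym² H^1)`
      (∀ u v w x, Θ (quad u v w x) = Θ (quad v u w x) ∧ Θ (quad u v w x) = Θ (quad u v x w) ∧
        Θ (quad u v w x) = Θ (quad w x u v)) ∧
      -- each codimension `m ≥ 2` by itself
      (∀ m, 2 ≤ m → (TateIn ρ χ C m ↔ HodgeIn per C m ∧ IsHodgeCombination per Θ)) ∧
      -- if `Θ` is algebraic
      (IsCombination (C 2) Θ → ∀ m, TateIn ρ χ C m ↔ HodgeIn per C m) ∧
      -- all codimensions together
      ((∀ m, TateIn ρ χ C m) ↔ (∀ m, HodgeIn per C m) ∧ IsCombination (C 2) Θ) := by
  obtain ⟨Θ, h1, h2, h3, h4⟩ := Pool.Agent.V8H91.TC.tate_final per ρ χ ω₀ ω hρ hχ hper hR hωω hωρ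
    hss hF hD hC C hCH
  refine ⟨Θ, h1, h2, h3, h4, fun h => ?_, fun h m => (h4 h.2 m).2 (h.1 m)⟩
  have h5 : IsCombination (C 2) Θ := h 2 Θ ⟨⊤, inferInstance, fun s _ v => h1 s v⟩
  exact ⟨fun m => (h4 h5 m).1 (h m), h5⟩

end Pool.Agent.Results.MP_90d181_ag.OneClassBeyondHodge
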