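import Mathlib
import Pool.Agent.V8H71.OD.Main
import Pool.Agent.Y1.TS.Split
import Pool.Agent.TH170.FT.Tate

/-!
# The Tate conjecture for abelian varieties with one Frobenius element whose slopes are controlled by
a prime number at one real place

Let `A` be an abelian variety over a number field (or a finitely generated field), of any dimension
and with arbitrary endomorphisms, which has good reduction at some place with a residue field of
`p ^ a` elements. Suppose that the characteristic polynomial of the Frobenius element at this place is
the product of the minimal polynomials of Weil numbers `π i` which lie in CM fields `K i`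
(`HasFrobenius`), pairwise independent: for `i ≠ k` and all complex embeddings `φ` of `K i` and `ψ` of
`K k` some automorphism of `ℂ` is the identity on `φ (K i)` and the complex conjugation on `ψ (K k)`
(no condition if the characteristic polynomial is irreducible). Let `u i` be the slope function of
`π i` (`HasSlopeFunction`): the slope at the embedding `τ : K i → ℚ̄_p` is `(a + κ u i τ) / 2` with a
rational number `κ ≠ 0` and integers `u i τ`; `u i τ = 0` is the slope `a / 2`. Suppose that each
`u i` satisfies one of the following conditions (`BlockCondition`), in which `F` is a totally real
subfield of `K i`, of any degree, and `ι : F → ℚ̄_p` is one embedding of `F` (the restriction of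
`τ₀`):

* (`OrbitBlock`) `[K i : F] = 2 l ^ k` for an odd prime `l`; `l` divides `u i τ` for all `τ` that do
  not extend `ι`; and some group of automorphisms has an orbit of `l ^ k` embeddings that extend `ι`
  over which the sum of `u i` is not divisible by `l`;
* (`CountBlock`) `[K i : F] = 2 l ^ k` for an odd prime `l`; `l` divides `u i τ` for all `τ` that do
  not extend `ι`; modulo `l` the values of `u i` at the `τ` that extend `ι` are `b`, `0` and `- b`,
  `l` does not divide `b`, and the value `b` occurs `m` times, where `m` is odd and less than `l`;
* (`TwoBlock`) `[K i : F] = 2 ^ (k + 1)`; `u i τ` is even for all `τ` that do not extend `ι`, and odd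
  for `m` of the `τ` that extend `ι`, where `m` is not divisible by `4` (`m` is always even); or the
  same with `even` and `odd` exchanged, if `4` divides `[K i : ℚ]`.

For instance (`CountBlock`, `F = ℚ`): `A` has dimension `l ^ k`, the characteristic polynomial of the
Frobenius element is irreducible, the slopes of the reduction are `0`, `1 / 2` and `1` and its `p`-rank
is odd and less than `l`. Or: `[K : F] = 2 l ^ k`, there is a place of degree one of `F` above `p`
such that all slopes at the other places are `1 / 2`, and at this place the slopes are `1 / 2` and,
with an odd multiplicity less than `l` each, `s` and `1 - s`.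

Then

(1) for all primes `ℓ` and all `n` and `m` each Tate class in `H^{2 m} (A^n, ℚ_ℓ (m))` lies in the
`ℚ_ℓ`-linear span of the classes of algebraic cycles: **the Tate conjecture holds for all powers of
`A`**, over all finite extensions. The classes of cycles of codimension `m` are given by a set
`C n m`; what is used is that the Tate classes of degree two are combinations of classes of divisors
(Faltings) and that intersections of divisors are algebraic cycles (`IsCycleClasses`). In the formal
statement `V` is the rational Tate module with the action `ρ` of the Galois group and the Weil
pairing `ω` of a polarization (`IsTateModule`; with the semisimplicity theorem of Faltings), `χ` is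
the cyclotomic character. The cohomology of `A ^ n` consists of the alternating forms on `V ^ n`;

(2) (`TateClassesSplit`) let `B` be another abelian variety, or any smooth variety, over the same
field and `M = H^b (B, ℚ_ℓ (i))` (or any other representation of the Galois group), and suppose
that the eigenvalues of the Frobenius element on `M` are roots of a rational polynomial all of whose
complex roots are unrelated to the fields `K i` (`UnrelatedTo`: a function `n` on the complex
embeddings of `K i` with `n (conj φ) = - n φ` which is invariant under all automorphisms of `ℂ` that
fix a power of the number is zero; for instance a power of it lies in a totally real field or in a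
field linearly disjoint from the normal closures of the `K i`). Then the classes in `H^j (A ^ r) ⊗ M`
which are fixed by an open subgroup are zero for odd `j`, and linear combinations of products of
`m` Tate classes of degree two on `A ^ r` and of Tate classes in `M (- m)` for `j = 2 m`. So **the
Tate conjecture for `A ^ r × B` is equivalent to the Tate conjecture for `B`**;

(3) the only multiplicative relations between `p ^ a` and the conjugates of the `π i` are the
trivial ones (`MaximalAngleRank`).

That (3) implies (1) and (2) was formalized in the starting files (helper137, helper1, helper170 and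
others); new are the conditions. For `F = ℚ` and (1) the first one was used in
`FrobeniusPrimePower` (MP_640417_ag). Here the slopes are restricted at one embedding of `F` only.

The proof of (3) in the main case. Let `L` be the Galois closure of `K`, `G` its group, `X` the set of
the embeddings of `K`, `B` the set of those which extend `ι`, `l` odd. A relation is an odd function
`z : X → ℤ` orthogonal to all translates of `u`; we may assume that it is not zero modulo `l`, and,
as `G` is transitive, not zero modulo `l` on `B`. Modulo `l` the function `u` is zero outside of
`B`; hence the restriction of `z` to `B` is orthogonal modulo `l` to the translates of `u` under the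
stabilizer of `ι`. A Sylow subgroup `S` of the group in the condition is transitive on the orbit
`O`, as this has `l ^ k` elements; it acts on the space, not zero, of the odd functions modulo `l` on
`B` with this property; so there is such a function `w ≠ 0` invariant under `S`. As `O` contains one
element of each pair of complex conjugate elements of `B`, `w` is a nonzero constant on `O`, and
`2 w ∑ u = 0` modulo `l`, the sum over `O`, contrary to the assumption.
-/

set_option autoImplicit false

namespace Pool.Agent.Results.MP_90d181_ag.OneFrobeniusBlocks

open NumberField Pool.Agent.H977R3.CM Pool.Agent.Y137.MV Pool.Agent.Y1.TS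
  Pool.Agent.H204R3.GP Pool.Agent.TH170.FT Pool.Agent.V8H71.OD

/-- The Tate conjecture for all powers of the abelian varieties with a Frobenius element whose
characteristic polynomial is the product of the minimal polynomials of the Weil numbers `π i` for
`p ^ a`, for the prime number `ℓ`. -/
def TatePowers (p a : ℕ) [Fact p.Prime] {I : Type} [Fintype I]
    (K : I → Type) [∀ i, Field (K i)] [∀ i, NumberField (K i)] [∀ i, IsCMField (K i)]
    (π : ∀ i, K i) (ℓ : ℕ) [Fact ℓ.Prime] : Prop :=
  ∀ (V Γ : Type) [AddCommGroup V] [Module ℚ_[ℓ] V] [FiniteDimensional ℚ_[ℓ] V] [Group Γ]
    (ρ : Representation ℚ_[ℓ] Γ V) (χ : Γ →* ℚ_[ℓ]) (ω : V →ₗ[ℚ_[ℓ]] V →ₗ[ℚ_[ℓ]] ℚ_[ℓ])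
    (D : ∀ n : ℕ, Set ((Fin n → V) [⋀^Fin 2]→ₗ[ℚ_[ℓ]] ℚ_[ℓ]))
    (C : ∀ n m : ℕ, Set ((Fin n → V) [⋀^Fin m × Fin 2]→ₗ[ℚ_[ℓ]] ℚ_[ℓ])),
    IsTateModule ρ χ ω → IsCycleClasses ρ χ D C → HasFrobenius ρ χ p a π →
      ∀ (n m : ℕ) (f : (Fin n → V) [⋀^Fin m × Fin 2]→ₗ[ℚ_[ℓ]] ℚ_[ℓ]),
        IsTateClass ρ χ m f → f ∈ Submodule.span ℚ_[ℓ] (C n m)

/-- **The Tate conjecture for all powers of `A`, and the reduction of the Tate conjecture for
`A ^ r × B` to the one for `B`, for all abelian varieties `A` with one Frobenius element whose slope
functions satisfy the condition at one embedding of a totally real subfield.** -/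
theorem result (p : ℕ) [Fact p.Prime] (a : ℕ) (ha : 0 < a) (I : Type) [Fintype I]
    (K : I → Type) [∀ i, Field (K i)] [∀ i, NumberField (K i)] [∀ i, IsCMField (K i)]
    (hind : PairwiseIndep K) (π : ∀ i, K i) (u : ∀ i, (K i →+* PadicAlgCl p) → ℤ)
    (hu : ∀ i, HasSlopeFunction a (π i) (u i)) (hcond : ∀ i, BlockCondition (u i)) :
    (∀ (ℓ : ℕ) [Fact ℓ.Prime], TatePowers p a K π ℓ) ∧ TateClassesSplit (p := p) a K π ∧
      MaximalAngleRank (p ^ a) π := by
  have hang := angle_of_block hind hu hcond
  have hπ0 : ∀ i, π i ≠ 0 := by
    intro i h0
    have h1 := (hu i).weil
    rw [h0, zero_mul] at h1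
    exact pow_ne_zero a (Nat.cast_ne_zero.2 (Fact.out : p.Prime).ne_zero) h1.symm
  have hgen := fun i => gen_of_angle hang hπ0 i
  refine ⟨?_, split_of_angle hgen (fun i => (hu i).weil) hang, hang⟩
  intro ℓ _ V Γ _ _ _ _ ρ χ ω D C hR hC hF n m f hf
  obtain ⟨L, hL1, hL2, j, h⟩ := Pool.Agent.H204R3.CM.exists_galois K
  have h1 := generated ha hgen (fun i => (hu i).weil) j h (neat_of_angle j hang) hR hF n m f hf
  refine Submodule.span_le.2 ?_ h1
  rintro g ⟨B, hB, hg⟩
  exact wedge_mem (fun B g => hC.intersection n m B g) (fun l => hC.faltings n (B l) (hB l)) hg

end Pool.Agent.Results.MP_90d181_ag.OneFrobeniusBlocks
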