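import Pool.Agent.V8H88.NF.Main

/-!
# The Tate conjecture from one Frobenius element: generic Weil polynomials with different splitting
fields, and products with varieties of smaller rank

Let `A` be an abelian variety over a number field (or a finitely generated field), of any dimension
and with arbitrary endomorphisms, which has good reduction at some place with a residue field of
`q = p ^ a` elements. Suppose that the characteristic polynomial of the Frobenius element at this
place is a product of polynomials `f i` of degree `2 g i` such that

* each `f i` is generic (`IsGeneric`): it is irreducible, no power of a root is real, and the Galois
  module of the odd functions on the set of the complex roots is irreducible over `ℚ` (for instance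
  the Galois group of `f i` is the full group of the signed permutations of the pairs of complex
  conjugate roots, and the reduction is not supersingular; or `g i = 1` and it is ordinary);
* the splitting fields of the `f i` are pairwise different. They may intersect in an arbitrary way.

Nothing is assumed about the Galois representation but the theorem of Faltings. Then

(1) (`TatePowers`) for all primes `ℓ` and all `n` and `m` each Tate class in
`H^{2 m} (A^n, ℚ_ℓ (m))` lies in the `ℚ_ℓ`-linear span of the classes of algebraic cycles: the Tate
conjecture holds for all powers of `A`, over all finite extensions;

(2) (`TateTimes`) let `B` be another abelian variety, or any smooth variety, over the same field and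
`M = H^b (B, ℚ_ℓ (i))` (or any other representation of the Galois group), and suppose that the
eigenvalues of the Frobenius element on `M` are roots of a rational polynomial all of whose complex
roots lie, up to powers, in a group generated by `E ^ ×` and `r` complex numbers, where `E` is a
Galois extension of `ℚ` which contains no splitting field of an `f i` and `r < g i` for all `i`. Then
the classes in `H^j (A ^ n) ⊗ M` which are fixed by an open subgroup are zero for odd `j`, and linear
combinations of products of `m` Tate classes of degree two on `A ^ n` and of Tate classes in
`M (- m)` for `j = 2 m` (`ClassesSplit`). So **the Tate conjecture for `A ^ n × B` is equivalent to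
the Tate conjecture for `B`**;

(3) this holds if the characteristic polynomial of the Frobenius element on `H^1` of an abelian
variety `B₁` of dimension `r < g i` for all `i` is an arbitrary Weil polynomial `h` and `M` is any
representation such that the eigenvalues of the Frobenius element are products of powers of `q` and
of roots of `h`: **for each abelian variety `B₁` of dimension less than all `g i`, whatever its
endomorphisms and its exotic classes are, the Tate conjecture for all `A ^ n × B₁ ^ m` is equivalent
to the one for all `B₁ ^ m`.** In particular it holds for all `A ^ n × B₁ ^ m` if it holds for the
powers of `B₁`, for instance if `B₁` is an elliptic curve and `g i ≥ 2` for all `i`.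

In the formal statement `V` is the rational Tate module with the action `ρ` of the Galois group and
the Weil pairing `ω` of a polarization (`IsTateModule`, with the semisimplicity theorem of Faltings),
`χ` is the cyclotomic character, the classes of cycles of codimension `m` on `A ^ n` are given by a
set `C n m`; what is used is that the Tate classes of degree two are combinations of classes of
divisors (Faltings) and that intersections of divisors are algebraic cycles (`IsCycleClasses`). The
cohomology of `A ^ n` consists of the alternating forms on `V ^ n`.

The method. A relation between the roots of the `f i`, the number `q` and an element of a group `Γ`
stable under automorphisms and roots, as the group of the numbers all of whose conjugates lie up to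
powers in the group generated by `E ^ ×` and `r` numbers, gives odd functions `c i` on the sets of
roots such that the product of the values of the `c i` lies in `Γ`. If the splitting field of some
`f i` with `c i ≠ 0` is not the smallest one, there is an automorphism `σ` which is the identity on
one splitting field and not on another one; the differences `c ∘ σ - c` give a shorter relation; as
the modules are irreducible, at the end all values of the odd functions on the roots of some `f i`
lie in `Γ`. By a count of the conjugates this is impossible for `r < g i` and a splitting field not
contained in `E`. So all multiplicative relations are trivial, and the Lie algebra of the image of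
the Galois group can be replaced by the one generated by the torus of the Frobenius element, as in
the theorems of the starting files.
-/

set_option autoImplicit false

namespace Pool.Agent.Results.MP_90d181_ag.SmallRankFactors

open Polynomial Pool.Agent.W521.Descent Pool.Agent.V8H88.AB Pool.Agent.V8H88.NF
  Pool.Agent.W484.TB

/-- **The Tate conjecture for the powers of abelian varieties with one Frobenius element whose
characteristic polynomial is a product of generic Weil polynomials with different splitting fields,
and its reduction for the products with varieties of smaller rank.** -/
theorem result (p : ℕ) [Fact p.Prime] (a : ℕ) (ha : 0 < a) (I : Type) [Fintype I] (g : I → ℕ)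
    (f : I → ℤ[X]) (hf : ∀ i, f i ∈ weilPolys (p ^ a) (g i)) (hgen : ∀ i, IsGeneric (f i))
    (hdiff : Pairwise fun i j => spl (f i) ≠ spl (f j)) :
    (∀ (ℓ : ℕ) [Fact ℓ.Prime], TatePowers (p ^ a) f ℓ) ∧
      (∀ (E : IntermediateField ℚ ℂ) [FiniteDimensional ℚ E] [IsGalois ℚ E] (r : ℕ) (S : Set ℂ),
        (∀ i, r < g i ∧ ¬ spl (f i) ≤ E) → RankLEOver E r S → TateTimes (p ^ a) f S) ∧
      ∀ r, (∀ i, r < g i) → ∀ h ∈ weilPolys (p ^ a) r,
        TateTimes (p ^ a) f {z : ℂ | IsMonomial (p ^ a) h z} := by
  have hq : 0 < p ^ a := pow_pos (Fact.out : p.Prime).pos a
  obtain ⟨h1, h2⟩ := main ha hf hgen hdiff
  refine ⟨h1, h2, fun r hr h hh => ?_⟩
  have : FiniteDimensional ℚ (⊥ : IntermediateField ℚ ℂ) := inferInstance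
  have : IsGalois ℚ (⊥ : IntermediateField ℚ ℂ) := galois_bot
  exact h2 ⊥ r _ (fun i => ⟨hr i, not_le_bot hq (hf i) (hgen i) (pos_of_generic (hf i) (hgen i))⟩)
    (rank_monomials hq hh fun z hz => hz)

end Pool.Agent.Results.MP_90d181_ag.SmallRankFactors
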